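import Pool.Agent.Run7.h35.EX.Stm

/-! # Project EX, piece CROSS -/

set_option autoImplicit false
open scoped BigOperators

namespace Run7.h426.EX

open Run7.h35.EX

lemma av_mono {T : Type} [Fintype T] {f g : T → ℝ} (h : ∀ t, f t ≤ g t) : av f ≤ av g := by
  unfold av
  exact div_le_div_of_nonneg_right (Finset.sum_le_sum fun t _ => h t) (Nat.cast_nonneg _)

lemma av_add {T : Type} [Fintype T] (f g : T → ℝ) :
    av (fun t => f t + g t) = av f + av g := by
  unfold av
  rw [Finset.sum_add_distrib, add_div]

lemma av_mul {T : Type} [Fintype T] (c : ℝ) (f : T → ℝ) : av (fun t => c * f t) = c * av f := by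
  unfold av
  rw [← Finset.mul_sum, mul_div_assoc]

lemma av_mul' {T : Type} [Fintype T] (c : ℝ) (f : T → ℝ) : av (fun t => f t * c) = av f * c := by
  unfold av
  rw [← Finset.sum_mul, div_mul_eq_mul_div]

lemma av_comm {T T' : Type} [Fintype T] [Fintype T'] (f : T → T' → ℝ) :
    (av fun t => av fun t' => f t t') = av fun t' => av fun t => f t t' := by
  unfold av
  rw [← Finset.sum_div, ← Finset.sum_div, Finset.sum_comm, div_right_comm]

lemma av_shift {V : Type} [Fintype V] [AddCommGroup V] (f : V → ℝ) (v : V) :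
    av (fun x => f (x + v)) = av f := by
  unfold av
  congr 1
  exact Fintype.sum_equiv (Equiv.addRight v) _ _ (fun x => rfl)

lemma av_nonneg {T : Type} [Fintype T] {f : T → ℝ} (h : ∀ t, 0 ≤ f t) : 0 ≤ av f := by
  unfold av
  exact div_nonneg (Finset.sum_nonneg fun t _ => h t) (Nat.cast_nonneg _)

lemma sqrt_add2 {x y : ℝ} (hx : 0 ≤ x) (hy : 0 ≤ y) : Real.sqrt (x + y) ≤ Real.sqrt x + Real.sqrt y := by
  rw [Real.sqrt_le_left (by positivity)]
  have h1 := Real.sq_sqrt hx
  have h2 := Real.sq_sqrt hy
  have h3 := mul_nonneg (Real.sqrt_nonneg x) (Real.sqrt_nonneg y)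
  nlinarith

lemma sqrt_abs3 (a b c : ℝ) :
    Real.sqrt |a + b + c| ≤ Real.sqrt |a| + Real.sqrt |b| + Real.sqrt |c| := by
  have h1 : |a + b + c| ≤ |a| + |b| + |c| := abs_add_three a b c
  refine (Real.sqrt_le_sqrt h1).trans ?_
  refine (sqrt_add2 (by positivity) (abs_nonneg c)).trans ?_
  have := sqrt_add2 (abs_nonneg a) (abs_nonneg b)
  linarith

theorem t_CROSS : S_CROSS := by
  intro V ι _ _ _ _ s ε t hε ht a hA h1 h2 h3
  have hpsi : ∀ x, 0 ≤ psi a x := fun x => av_nonneg fun j => Real.sqrt_nonneg _
  have hb : ∀ x j, Real.sqrt |breg t a x j| ≤ t * psi a x := by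
    intro x j
    have h0 : 0 ≤ t * psi a x := mul_nonneg ht.le (hpsi x)
    unfold breg
    split_ifs with h
    · calc Real.sqrt |a x j| ≤ Real.sqrt ((t * psi a x) ^ 2) := Real.sqrt_le_sqrt h
        _ = t * psi a x := Real.sqrt_sq h0
    · simpa using h0
  have hc : ∀ x j, Real.sqrt |csing t a x j| ≤ Real.sqrt |a x j| := by
    intro x j
    apply Real.sqrt_le_sqrt
    unfold csing breg
    split_ifs with h
    · simp
    · simp
  have hbc : ∀ x j, Real.sqrt |breg t a x j| * Real.sqrt |csing t a x j| = 0 := by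
    intro x j
    unfold csing breg
    split_ifs with h <;> simp
  have hA' : ∀ x i, |a x i| = |a (x + s i) i| := by
    intro x i
    rw [hA x i, abs_neg]
  -- pointwise bound
  have hpt : ∀ x i j, Real.sqrt |UU s t a x i j| * Real.sqrt |WW s t a x i j| ≤
      Real.sqrt |a x i| * Real.sqrt |a (x + s j) i| +
      Real.sqrt |a x i| * Real.sqrt |csing t a x j| +
      Real.sqrt |a (x + s i) i| * Real.sqrt |csing t a (x + s i) j| +
      t * (psi a x * Real.sqrt |a (x + s j) i|) +
      t * (psi a x * Real.sqrt |a (x + s i) j|) +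
      t * (psi a (x + s i) * Real.sqrt |a (x + s i + s j) i|) +
      t * (psi a (x + s i) * Real.sqrt |a x j|) := by
    intro x i j
    have e1 : UU s t a x i j = a x i + -breg t a x j + breg t a (x + s i) j := by
      unfold UU; ring
    have e2 : WW s t a x i j = a (x + s j) i + csing t a x j + -csing t a (x + s i) j := by
      unfold WW; ring
    rw [e1, e2]
    have g1 := sqrt_abs3 (a x i) (-breg t a x j) (breg t a (x + s i) j)
    have g2 := sqrt_abs3 (a (x + s j) i) (csing t a x j) (-csing t a (x + s i) j)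
    rw [abs_neg] at g1 g2
    have g3 : Real.sqrt |a (x + s j) i| = Real.sqrt |a (x + s i + s j) i| := by
      rw [hA' (x + s j) i, add_right_comm]
    have g4 : Real.sqrt |a x i| = Real.sqrt |a (x + s i) i| := by rw [hA' x i]
    have p1 := hb x j
    have p2 := hb (x + s i) j
    have p3 := hc x j
    have p4 := hc (x + s i) j
    have z1 := hbc x j
    have z2 := hbc (x + s i) j
    have n1 := Real.sqrt_nonneg |a x i|
    have n2 := Real.sqrt_nonneg |breg t a x j|
    have n3 := Real.sqrt_nonneg |breg t a (x + s i) j|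
    have n4 := Real.sqrt_nonneg |a (x + s j) i|
    have n5 := Real.sqrt_nonneg |csing t a x j|
    have n6 := Real.sqrt_nonneg |csing t a (x + s i) j|
    have n7 := Real.sqrt_nonneg |a x j|
    have n8 := Real.sqrt_nonneg |a (x + s i) j|
    have q0 := mul_nonneg ht.le (hpsi x)
    have q1 := mul_nonneg ht.le (hpsi (x + s i))
    refine (mul_le_mul g1 g2 (Real.sqrt_nonneg _) (by positivity)).trans ?_
    have m4 : Real.sqrt |breg t a x j| * Real.sqrt |a (x + s j) i| ≤
        t * (psi a x * Real.sqrt |a (x + s j) i|) := by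
      rw [← mul_assoc]
      exact mul_le_mul_of_nonneg_right p1 n4
    have m6 : Real.sqrt |breg t a x j| * Real.sqrt |csing t a (x + s i) j| ≤
        t * (psi a x * Real.sqrt |a (x + s i) j|) := by
      rw [← mul_assoc]
      exact mul_le_mul p1 p4 n6 q0
    have m7 : Real.sqrt |breg t a (x + s i) j| * Real.sqrt |a (x + s j) i| ≤
        t * (psi a (x + s i) * Real.sqrt |a (x + s i + s j) i|) := by
      rw [← mul_assoc, ← g3]
      exact mul_le_mul_of_nonneg_right p2 n4
    have m8 : Real.sqrt |breg t a (x + s i) j| * Real.sqrt |csing t a x j| ≤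
        t * (psi a (x + s i) * Real.sqrt |a x j|) := by
      rw [← mul_assoc]
      exact mul_le_mul p2 p3 n5 q1
    have m3 : Real.sqrt |a x i| * Real.sqrt |csing t a (x + s i) j| =
        Real.sqrt |a (x + s i) i| * Real.sqrt |csing t a (x + s i) j| := by rw [g4]
    nlinarith
  -- the seven averages
  have t2 : (av fun x => av fun i => av fun j =>
      Real.sqrt |a x i| * Real.sqrt |csing t a x j|) ≤ 1 / t := by
    refine le_trans (le_of_eq ?_) h3
    congr 1
    funext x
    simp only [av_mul]
    rw [av_mul']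
    rfl
  have t3 : (av fun x => av fun i => av fun j =>
      Real.sqrt |a (x + s i) i| * Real.sqrt |csing t a (x + s i) j|) ≤ 1 / t := by
    refine le_trans (le_of_eq ?_) t2
    rw [av_comm, av_comm (fun x i => av fun j => Real.sqrt |a x i| * Real.sqrt |csing t a x j|)]
    congr 1
    funext i
    exact av_shift (fun y => av fun j => Real.sqrt |a y i| * Real.sqrt |csing t a y j|) (s i)
  have t4 : (av fun x => av fun i => av fun j =>
      t * (psi a x * Real.sqrt |a (x + s j) i|)) ≤ t * ε := by
    refine le_trans (le_of_eq ?_) (mul_le_mul_of_nonneg_left h2 ht.le)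
    rw [← av_mul]
    congr 1
    funext x
    rw [av_comm, ← av_mul]
    congr 1
    funext j
    rw [av_mul, av_mul]
    rfl
  have t6 : (av fun x => av fun i => av fun j =>
      t * (psi a x * Real.sqrt |a (x + s i) j|)) ≤ t * ε := by
    refine le_trans (le_of_eq ?_) (mul_le_mul_of_nonneg_left h2 ht.le)
    rw [← av_mul]
    congr 1
    funext x
    rw [← av_mul]
    congr 1
    funext i
    rw [av_mul, av_mul]
    rfl
  have t7 : (av fun x => av fun i => av fun j =>
      t * (psi a (x + s i) * Real.sqrt |a (x + s i + s j) i|)) ≤ t * ε := by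
    refine le_trans (le_of_eq ?_) t4
    rw [av_comm, av_comm (fun x i => av fun j => t * (psi a x * Real.sqrt |a (x + s j) i|))]
    congr 1
    funext i
    exact av_shift (fun y => av fun j => t * (psi a y * Real.sqrt |a (y + s j) i|)) (s i)
  have t8 : (av fun x => av fun i => av fun j =>
      t * (psi a (x + s i) * Real.sqrt |a x j|)) ≤ t * ε := by
    refine le_trans (le_of_eq ?_) (mul_le_mul_of_nonneg_left h2 ht.le)
    rw [← av_mul]
    congr 1
    funext x
    rw [← av_mul]
    congr 1
    funext i
    rw [av_mul, av_mul, mul_comm (psi a (x + s i))]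
    rfl
  have hall : (av fun x => av fun i => av fun j =>
      Real.sqrt |UU s t a x i j| * Real.sqrt |WW s t a x i j|) ≤ _ :=
    av_mono fun x => av_mono fun i => av_mono fun j => hpt x i j
  refine hall.trans ?_
  simp only [av_add]
  have : (2 : ℝ) / t = 1 / t + 1 / t := by ring
  linarith

end Run7.h426.EX
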